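import Pool.Agent.H998.LT.Defs

set_option autoImplicit false

/-! `S_tile` from `S_row`. -/

open MeasureTheory Real
open scoped FourierTransform ComplexConjugate

namespace Pool.Agent.H894.LT

open Pool.Agent.H998.LT

theorem nice_cont {g G : ℝ → ℝ} {C : ℝ}
    (hg : Nice (fun y => (g y : ℂ)) (fun ξ => (G ξ : ℂ)) C) : Continuous g :=
  Complex.continuous_re.comp hg.cont

theorem nice_le {g G : ℝ → ℝ} {C : ℝ}
    (hg : Nice (fun y => (g y : ℂ)) (fun ξ => (G ξ : ℂ)) C) (y : ℝ) :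
    |g y| ≤ C * (1 + y ^ 2)⁻¹ := by
  have h1 := hg.bound y
  rw [Complex.norm_real, Real.norm_eq_abs, div_eq_mul_inv] at h1
  exact h1

theorem nice_int {g G : ℝ → ℝ} {C : ℝ}
    (hg : Nice (fun y => (g y : ℂ)) (fun ξ => (G ξ : ℂ)) C) : Integrable g := by
  refine (integrable_inv_one_add_sq.const_mul C).mono' (nice_cont hg).aestronglyMeasurable ?_
  refine Filter.Eventually.of_forall fun y => ?_
  rw [Real.norm_eq_abs]
  exact nice_le hg y

theorem int_prod {u v : ℝ → ℝ} (hu : Integrable u) (hv : Integrable v) :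
    Integrable fun x : Fin 2 → ℝ => u (x 0) * v (x 1) := by
  have h1 : Integrable (fun x : Fin 2 → ℝ => ∏ i, (![u, v] : Fin 2 → ℝ → ℝ) i (x i)) := by
    refine Integrable.fintype_prod fun i => ?_
    fin_cases i
    · exact hu
    · exact hv
  refine h1.congr (Filter.Eventually.of_forall fun x => ?_)
  simp [Fin.prod_univ_two]

theorem sum_sq : Summable fun n : ℤ => (1 + (n : ℝ) ^ 2)⁻¹ := by
  have h1 : Summable fun n : ℤ => 1 / (n : ℝ) ^ 2 := Real.summable_one_div_int_pow.2 one_lt_two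
  have h2 : Summable fun n : ℤ => (if n = 0 then (1 : ℝ) else 0) :=
    summable_of_ne_finset_zero (s := {0}) (by
      intro n hn
      rw [Finset.mem_singleton] at hn
      rw [if_neg hn])
  refine Summable.of_nonneg_of_le (fun n => by positivity) (fun n => ?_) (h1.add h2)
  by_cases h : n = 0
  · subst h
    simp
  · rw [if_neg h, add_zero, one_div]
    have h3 : (0 : ℝ) < (n : ℝ) ^ 2 := by positivity
    gcongr
    linarith

theorem sum_ap (c p : ℝ) (hp : 1 ≤ p) : Summable fun n : ℤ => (1 + (c - p * n) ^ 2)⁻¹ := by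
  refine Summable.of_nonneg_of_le (fun n => by positivity) (fun n => ?_)
    (sum_sq.mul_left (2 + 2 * c ^ 2))
  have h1 : (0 : ℝ) < 1 + (c - p * n) ^ 2 := by positivity
  have h2 : (0 : ℝ) < 1 + (n : ℝ) ^ 2 := by positivity
  rw [inv_le_iff_one_le_mul₀ h1, mul_assoc, inv_mul_eq_div, ← mul_div_assoc, one_le_div h2]
  have h3 : (n : ℝ) ^ 2 ≤ (p * n) ^ 2 := by
    rw [mul_pow]
    have h4 : 1 ≤ p ^ 2 := one_le_pow₀ hp
    nlinarith [sq_nonneg (n : ℝ)]
  have h5 : (p * n) ^ 2 ≤ 2 * (c - p * n) ^ 2 + 2 * c ^ 2 := by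
    nlinarith [sq_nonneg ((p * n - c) - c), sq_nonneg (2 * c - p * n)]
  nlinarith [sq_nonneg c, sq_nonneg (c - p * n), mul_nonneg (sq_nonneg c) (sq_nonneg (c - p * n))]

theorem per_ge (s : Bool) : 1 ≤ per s := by
  unfold per
  split_ifs
  · exact Real.one_le_sqrt.2 (by norm_num)
  · exact le_rfl

theorem sum_row (θ σ y : ℝ) : Summable fun r : Row => (1 + (y - hgt θ σ r) ^ 2)⁻¹ := by
  have h0 : ∀ s b : Bool, Summable fun n : ℤ => (1 + (y - hgt θ σ (s, b, n)) ^ 2)⁻¹ := by
    intro s b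
    have h1 := sum_ap (y - per s * (if b then θ else 0) - off σ s) (per s) (per_ge s)
    refine h1.congr fun n => ?_
    unfold hgt
    congr 3
    simp only
    ring
  refine (summable_prod_of_nonneg (fun r => by positivity)).2 ⟨fun s => ?_, Summable.of_finite⟩
  exact (summable_prod_of_nonneg (fun r => by positivity)).2 ⟨fun b => h0 s b, Summable.of_finite⟩

theorem t_tile (hrow : S_row) : S_tile := by
  intro θ σ hinj w hw1 hw2 h g h2 k H G H2 K C nh ng nh2 nk hH hH2 hH20 hyp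
  refine ⟨(int_prod (nice_int nh) (nice_int ng)).add (int_prod (nice_int nh2) (nice_int nk)), ?_⟩
  intro v
  obtain ⟨D1, hD1⟩ := hrow h H C nh hH
  obtain ⟨D2, hD2⟩ := hrow h2 H2 C nh2 hH2
  obtain ⟨hs, ht⟩ := hyp (v 1)
  -- the point map is injective
  have hP : Function.Injective fun p : Row × ℤ => (![p.2 / w p.1, hgt θ σ p.1] : Fin 2 → ℝ) := by
    rintro ⟨r, n⟩ ⟨r', n'⟩ hpp
    have e1 : hgt θ σ r = hgt θ σ r' := congrFun hpp 1
    have e2 : (n : ℝ) / w r = n' / w r' := congrFun hpp 0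
    have e3 : r = r' := hinj e1
    subst e3
    have e4 : (0 : ℝ) < w r := by linarith [hw2 r]
    have e5 : (n : ℝ) = n' := by
      rwa [div_left_inj' e4.ne'] at e2
    have e6 : n = n' := by exact_mod_cast e5
    rw [e6]
  -- summability over the rows
  have s1 : Summable fun r : Row => |g (v 1 - hgt θ σ r)| := by
    refine Summable.of_nonneg_of_le (fun r => abs_nonneg _) (fun r => ?_) (hs.mul_left 2)
    rw [norm_mul, Complex.norm_real, Complex.norm_real, Real.norm_eq_abs, Real.norm_eq_abs]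
    have e1 := hw2 r
    have e2 : w r ≤ |w r| := le_abs_self _
    nlinarith [abs_nonneg (g (v 1 - hgt θ σ r))]
  have s2 : Summable fun r : Row => |k (v 1 - hgt θ σ r)| := by
    refine Summable.of_nonneg_of_le (fun r => abs_nonneg _) (fun r => ?_)
      ((sum_row θ σ (v 1)).mul_left C)
    exact nice_le nk _
  have key : ∀ (a b : ℝ → ℝ) (D : ℝ) (A : ℝ), (∀ w : ℝ, 1 / 2 ≤ w → w ≤ 9 / 4 → ∀ u : ℝ,
      HasSum (fun k : ℤ => a (u - k / w)) (w * A) ∧
      (Summable fun k : ℤ => |a (u - k / w)|) ∧ ∑' k : ℤ, |a (u - k / w)| ≤ D) →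
      (Summable fun r : Row => |b (v 1 - hgt θ σ r)|) →
      Summable fun p : Row × ℤ => a (v 0 - p.2 / w p.1) * b (v 1 - hgt θ σ p.1) := by
    intro a b D A ha hb
    refine Summable.of_norm ?_
    refine (summable_prod_of_nonneg (fun p => norm_nonneg _)).2 ⟨fun r => ?_, ?_⟩
    · simp only [norm_mul, Real.norm_eq_abs]
      exact ((ha (w r) (hw2 r) (hw1 r) (v 0)).2.1).mul_right _
    · simp only [norm_mul, Real.norm_eq_abs, tsum_mul_right]
      refine Summable.of_nonneg_of_le (fun r => ?_) (fun r => ?_) (hb.mul_left D)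
      · exact mul_nonneg (tsum_nonneg fun _ => abs_nonneg _) (abs_nonneg _)
      · exact mul_le_mul_of_nonneg_right (ha (w r) (hw2 r) (hw1 r) (v 0)).2.2 (abs_nonneg _)
  have q1 := key h g D1 (H 0) hD1 s1
  have q2 := key h2 k D2 (H2 0) hD2 s2
  have q3 := (q1.add q2).hasSum
  have q4 := q3.prod_fiberwise (g := fun r : Row => H 0 * (w r * g (v 1 - hgt θ σ r))) (by
    intro r
    have e1 := ((hD1 (w r) (hw2 r) (hw1 r) (v 0)).1).mul_right (g (v 1 - hgt θ σ r))
    have e2 := ((hD2 (w r) (hw2 r) (hw1 r) (v 0)).1).mul_right (k (v 1 - hgt θ σ r))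
    have e3 := e1.add e2
    have e4 : w r * H 0 * g (v 1 - hgt θ σ r) + w r * H2 0 * k (v 1 - hgt θ σ r) =
        H 0 * (w r * g (v 1 - hgt θ σ r)) := by
      rw [hH20]
      ring
    rw [e4] at e3
    exact e3)
  have q5 : HasSum (fun r : Row => w r * g (v 1 - hgt θ σ r)) (4 * G 0) := by
    have e1 := hs.of_norm.hasSum
    rw [ht] at e1
    have e2 := Complex.hasSum_re e1
    have e3 : ((4 : ℂ) * (G 0 : ℂ)).re = 4 * G 0 := by
      have : ((4 : ℂ) * (G 0 : ℂ)) = ((4 * G 0 : ℝ) : ℂ) := by push_cast; ring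
      rw [this, Complex.ofReal_re]
    rw [e3] at e2
    refine e2.congr_fun ?_
    intro r
    rw [← Complex.ofReal_mul, Complex.ofReal_re]
  have q6 := q4.unique (q5.mul_left (H 0))
  rw [q6] at q3
  have q7 := (Equiv.ofInjective _ hP).hasSum_iff (f := fun a : Lam (hgt θ σ) w => ff h g h2 k (v - a))
    (a := H 0 * (4 * G 0))
  refine q7.1 ?_
  refine q3.congr_fun ?_
  rintro ⟨r, n⟩
  change ff h g h2 k (v - ![(n : ℝ) / w r, hgt θ σ r]) = _
  simp [ff]

end Pool.Agent.H894.LT
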